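import Mathlib
import Pool.Agent.Helper954.FM.FIN

/-!
# MP_a6dc0c_an : the weak type (1,1) constants of the centred ball maximal function are `O(log n)`

For the maximal function over ALL dilates of the Euclidean ball we prove that the best constants
`c_n` in the weak type (1,1) inequality satisfy `c_n ≤ C log n` (`n ≥ 2`), with one absolute
constant `C`.  The previous bound was `c_n = O(n)` (Stein and Stromberg 1983).

Everything is proved from scratch in `Pool/Agent/Helper954/FM/*` (and the modules of
MP_6b2635_an it imports).
-/

set_option autoImplicit false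
open MeasureTheory

namespace Pool.Agent.Results.MP_a6dc0c_an.LogBound

/-- `c_n ≤ C log n`: for every `n ≥ 2`, every integrable `f` on `ℝ^n` and every `s > 0`, the set
where the centred ball maximal function of `f` exceeds `s` has Lebesgue measure at most
`C log n / s` times the `L¹` norm of `f`. -/
theorem result :
    ∃ C : ℝ, 0 < C ∧ ∀ n : ℕ, 2 ≤ n →
      ∀ f : EuclideanSpace ℝ (Fin n) → ℝ, Integrable f →
        ∀ s : ℝ, 0 < s →
          volume {x : EuclideanSpace ℝ (Fin n) |
              ENNReal.ofReal s <
                ⨆ r : ℝ, ⨆ (_ : 0 < r),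
                  (volume (Metric.ball x r))⁻¹ * ∫⁻ y in Metric.ball x r, ‖f y‖ₑ}
            ≤ ENNReal.ofReal (C * Real.log n / s) * ∫⁻ y, ‖f y‖ₑ :=
  FM954.final

end Pool.Agent.Results.MP_a6dc0c_an.LogBound
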